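import Mathlib
import Pool.Agent.H63.Tb2

namespace Pool.Agent.Results.MP_d521c2_gt.Dihedral

open Matrix LaurentPolynomial

noncomputable section

/-- Integer Laurent polynomials. -/
abbrev LP := LaurentPolynomial ℤ

/-- Schubert word `w = x^{e_1} y^{e_2} ⋯ y^{e_{a-1}}`, `e_i = (-1)^{⌊i b / a⌋}`.
A letter is a pair (generator, sign): generator `true = x`, `false = y`; sign `true = +1`. -/
def wWord (a : ℕ) (b : ℤ) : List (Bool × Bool) :=
  (List.range (a - 1)).map fun j =>
    (decide (Odd (j + 1)), decide (Even ((((j + 1 : ℕ) : ℤ) * b) / (a : ℤ))))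

/-- The relator `w x w⁻¹ y⁻¹`. -/
def relWord (a : ℕ) (b : ℤ) : List (Bool × Bool) :=
  wWord a b ++ [(true, true)] ++ FreeGroup.invRev (wWord a b) ++ [(false, false)]

/-- The group `⟨x, y | w x = y w⟩` of the two-bridge knot with Schubert normal form `b(a,b)`. -/
abbrev KG (a : ℕ) (b : ℤ) := PresentedGroup ({FreeGroup.mk (relWord a b)} : Set (FreeGroup Bool))

/-- The meridian generators. -/
def gen (a : ℕ) (b : ℤ) (i : Bool) : KG a b := PresentedGroup.of i

/-- Fox derivative of a word with respect to the generator `j`, in the group ring of `G`. -/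
def fox {G : Type} [Group G] (g : Bool → G) (j : Bool) : List (Bool × Bool) → MonoidAlgebra ℤ G
  | [] => 0
  | (i, true) :: w => (if i = j then 1 else 0) + MonoidAlgebra.of ℤ G (g i) * fox g j w
  | (i, false) :: w => (if i = j then -MonoidAlgebra.of ℤ G (g i)⁻¹ else 0)
      + MonoidAlgebra.of ℤ G (g i)⁻¹ * fox g j w

lemma phi_rel (a : ℕ) (b : ℤ) : ∀ r ∈ ({FreeGroup.mk (relWord a b)} : Set (FreeGroup Bool)),
    FreeGroup.lift (fun _ : Bool => Multiplicative.ofAdd (1 : ℤ)) r = 1 := by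
  rintro r rfl
  unfold relWord
  rw [← FreeGroup.mul_mk, ← FreeGroup.mul_mk, ← FreeGroup.mul_mk, ← FreeGroup.inv_mk]
  simp only [map_mul, map_inv]
  rw [mul_comm (FreeGroup.lift _ (FreeGroup.mk (wWord a b))), mul_inv_cancel_right]
  simp [FreeGroup.lift_mk]

/-- Abelianization, sending both meridians to `t`. -/
def phi (a : ℕ) (b : ℤ) : KG a b →* Multiplicative ℤ := PresentedGroup.toGroup (phi_rel a b)

/-- Action of the dihedral group on `Z/p`: `y = r 1` sends `n` to `n - 1`, `x = sr 0` sends `n`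
to `-n`. -/
def act {p : ℕ} : DihedralGroup p → ZMod p → ZMod p
  | .r i, n => n - i
  | .sr i, n => i - n

lemma act_mul {p : ℕ} (g h : DihedralGroup p) (n : ZMod p) : act (g * h) n = act g (act h n) := by
  cases g <;> cases h <;> simp [act] <;> ring

/-- The permutation matrices. -/
def rho (p : ℕ) [NeZero p] : DihedralGroup p →* Matrix (ZMod p) (ZMod p) LP where
  toFun g := Matrix.of fun m n => if m = act g n then 1 else 0
  map_one' := by
    ext m n : 1
    have h : act (1 : DihedralGroup p) n = n := sub_zero n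
    simp [h, Matrix.one_apply]
  map_mul' g h := by
    ext m n : 1
    simp [Matrix.mul_apply, act_mul]

/-- `g ↦ t^{φ(g)}`. -/
def tpow (a : ℕ) (b : ℤ) : KG a b →* LP where
  toFun g := T (Multiplicative.toAdd (phi a b g))
  map_one' := by simp
  map_mul' g h := by rw [map_mul, toAdd_mul, T_add]

/-- `g ↦ ϱ(α g) t^{φ(g)}`. -/
def rep {a : ℕ} {b : ℤ} {p : ℕ} [NeZero p] (α : KG a b →* DihedralGroup p) :
    KG a b →* Matrix (ZMod p) (ZMod p) LP where
  toFun g := tpow a b g • rho p (α g)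
  map_one' := by simp
  map_mul' g h := by simp [smul_smul, mul_comm]

/-- The ring map `Φ` from the group ring to matrices. -/
def Phi {a : ℕ} {b : ℤ} {p : ℕ} [NeZero p] (α : KG a b →* DihedralGroup p) :
    MonoidAlgebra ℤ (KG a b) →ₐ[ℤ] Matrix (ZMod p) (ZMod p) LP :=
  MonoidAlgebra.lift ℤ _ _ (rep α)

/-- Alexander polynomial: the abelianized Fox derivative of the relator. -/
def alex (a : ℕ) (b : ℤ) : LP :=
  MonoidAlgebra.lift ℤ LP (KG a b) (tpow a b) (fox (gen a b) true (relWord a b))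

/-- Denominator `det Φ(g_{j0} - 1)`. -/
def den {a : ℕ} {b : ℤ} {p : ℕ} [NeZero p] (α : KG a b →* DihedralGroup p) (j0 : Bool) : LP :=
  (Phi α (MonoidAlgebra.of ℤ _ (gen a b j0) - 1)).det

/-- Wada's invariant, computed with the column `j0` deleted. -/
def wada {a : ℕ} {b : ℤ} {p : ℕ} [NeZero p] (α : KG a b →* DihedralGroup p) (j0 : Bool) :
    FractionRing LP :=
  algebraMap LP _ (Phi α (fox (gen a b) (!j0) (relWord a b))).det / algebraMap LP _ (den α j0)

/-- The substitution `t ↦ -t`. -/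
def negT : LP →+* LP := LaurentPolynomial.eval₂ (Int.castRingHom LP) (-(isUnit_T (R := ℤ) 1).unit)

/-! ### Fox calculus -/

section Fox

variable {G : Type} [Group G] (g : Bool → G)

def val (l : Bool × Bool) : G := cond l.2 (g l.1) (g l.1)⁻¹

def wv (w : List (Bool × Bool)) : G := (w.map (val g)).prod

lemma fox_append (j : Bool) (u v : List (Bool × Bool)) :
    fox g j (u ++ v) = fox g j u + MonoidAlgebra.of ℤ G (wv g u) * fox g j v := by
  induction u with
  | nil => simp only [fox, wv, List.nil_append, List.map_nil, List.prod_nil, map_one, one_mul,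
      zero_add]
  | cons l u ih =>
    obtain ⟨i, s⟩ := l
    cases s
    · simp only [List.cons_append, fox, ih, wv, List.map_cons, List.prod_cons, val, cond_false,
        map_mul, mul_add, mul_assoc, add_assoc]
    · simp only [List.cons_append, fox, ih, wv, List.map_cons, List.prod_cons, val, cond_true,
        map_mul, mul_add, mul_assoc, add_assoc]

lemma fox_single (j : Bool) (l : Bool × Bool) :
    fox g j [l] * (MonoidAlgebra.of ℤ G (g j) - 1)
      = if l.1 = j then MonoidAlgebra.of ℤ G (val g l) - 1 else 0 := by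
  obtain ⟨i, s⟩ := l
  cases s
  · simp only [fox, mul_zero, add_zero, val, cond_false]
    split_ifs with h
    · subst h
      rw [neg_mul, mul_sub, ← map_mul, inv_mul_cancel, map_one, mul_one, neg_sub]
    · simp
  · simp only [fox, mul_zero, add_zero, val, cond_true]
    split_ifs with h
    · subst h; rw [one_mul]
    · simp

def PP (L : ℕ → Bool × Bool) (n : ℕ) : G := wv g ((List.range n).map L)

lemma PP_zero (L : ℕ → Bool × Bool) : PP g L 0 = 1 := by simp [PP, wv]

lemma PP_succ (L : ℕ → Bool × Bool) (n : ℕ) : PP g L (n + 1) = PP g L n * val g (L n) := by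
  simp [PP, wv, List.range_succ]

lemma fox_range (j : Bool) (L : ℕ → Bool × Bool) (n : ℕ) :
    fox g j ((List.range n).map L) * (MonoidAlgebra.of ℤ G (g j) - 1)
      = ∑ i ∈ Finset.range n, if (L i).1 = j then
          MonoidAlgebra.of ℤ G (PP g L (i + 1)) - MonoidAlgebra.of ℤ G (PP g L i) else 0 := by
  induction n with
  | zero => simp [fox]
  | succ n ih =>
    rw [List.range_succ, List.map_append, fox_append, add_mul, ih, Finset.sum_range_succ,
      mul_assoc, List.map_singleton, fox_single]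
    congr 1
    split_ifs
    · rw [PP_succ, map_mul, mul_sub, mul_one]; rfl
    · simp

end Fox

lemma sum_pairs {M : Type} [AddCommMonoid M] (F : ℕ → M) (a : ℕ) :
    ∑ i ∈ Finset.range (2 * a), F i = ∑ k ∈ Finset.range a, (F (2 * k) + F (2 * k + 1)) := by
  induction a with
  | zero => simp
  | succ a ih =>
    rw [show 2 * (a + 1) = 2 * a + 1 + 1 by ring, Finset.sum_range_succ, Finset.sum_range_succ, ih,
      Finset.sum_range_succ, add_assoc]

open Pool.Agent.H63.Tb (fl fl_refl fl_add fl_neg fl_zero)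

/-- the periodic letter sequence -/
def LL (a : ℕ) (b : ℤ) (i : ℕ) : Bool × Bool :=
  (decide (Even i), decide (Even (fl a b ((i : ℤ) + 1))))

lemma rel_eq (a : ℕ) (b : ℤ) (ha : Odd a) (hb : Odd b) (hab : IsCoprime (a : ℤ) b) :
    relWord a b = (List.range (2 * a)).map (LL a b) := by
  have ha0 : 0 < a := ha.pos
  have hnd : ∀ i : ℕ, 0 < i → i < a → ¬ (a : ℤ) ∣ (i : ℤ) * b := by
    intro i h0 h1 h
    have := hab.dvd_of_dvd_mul_right h
    have := Int.le_of_dvd (by exact_mod_cast h0) this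
    omega
  obtain ⟨a', ha'⟩ := ha
  obtain ⟨b', hb'⟩ := hb
  have hw : wWord a b = (List.range (a - 1)).map (LL a b) := by
    unfold wWord
    refine List.map_congr_left fun j hj => ?_
    have hj' := List.mem_range.1 hj
    unfold LL
    have h1 := (fl_neg a ha0 b ((j + 1 : ℕ) : ℤ) (hnd (j + 1) (by omega) (by omega))).1
    push_cast at h1 ⊢
    rw [h1]
    congr 1
    simp [Nat.odd_add_one]
  have hmid : LL a b (a - 1) = (true, true) := by
    unfold LL
    have h1 : (((a - 1 : ℕ) : ℤ) + 1) = 0 + a := by omega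
    rw [h1, fl_add a ha0, fl_zero a ha0]
    have h2 : Even (a - 1) := ⟨a', by omega⟩
    have h3 : Even (-1 + b) := ⟨b', by omega⟩
    simp [h2, h3]
  have hlast : LL a b (2 * a - 1) = (false, false) := by
    unfold LL
    have h1 : (((2 * a - 1 : ℕ) : ℤ) + 1) = 0 + a + a := by omega
    rw [h1, fl_add a ha0, fl_add a ha0, fl_zero a ha0]
    have h2 : ¬ Even (2 * a - 1) := by rintro ⟨k, hk⟩; omega
    have h3 : ¬ Even (-1 + b + b) := by rintro ⟨k, hk⟩; omega
    simp [h2, h3]
  have hinv : FreeGroup.invRev (wWord a b) = (List.range (a - 1)).map (fun j => LL a b (a + j)) := by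
    apply List.ext_getElem
    · simp [wWord]
    · intro j h1 h2
      have hj : j < a - 1 := by simpa using h2
      simp only [FreeGroup.invRev, wWord, List.map_map, List.getElem_reverse, List.getElem_map,
        List.getElem_range, List.length_map, List.length_range, Function.comp]
      unfold LL
      have e1 : a - 1 - 1 - j + 1 = a - 1 - j := by omega
      rw [e1]
      have h3 := (fl_neg a ha0 b ((a - 1 - j : ℕ) : ℤ) (hnd _ (by omega) (by omega))).2
      have e2 : (((a + j : ℕ) : ℤ) + 1) = -((a - 1 - j : ℕ) : ℤ) + a + a := by omega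
      rw [e2, fl_add a ha0, fl_add a ha0, h3]
      refine Prod.ext ?_ ?_
      · simp only [decide_eq_decide, Nat.odd_iff, Nat.even_iff]
        omega
      · generalize ((a - 1 - j : ℕ) : ℤ) * b / a = z
        by_cases hz : Even z
        · obtain ⟨k, hk⟩ := hz
          have h5 : ¬ Even (-z - 1 + b + b) := by rintro ⟨k', hk'⟩; omega
          have h6 : Even z := ⟨k, hk⟩
          simp [h5, h6]
        · have h5 : Even (-z - 1 + b + b) := by
            rw [Int.not_even_iff_odd] at hz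
            obtain ⟨k, hk⟩ := hz
            exact ⟨b - k - 1, by omega⟩
          simp [h5, hz]
  unfold relWord
  rw [hinv, hw]
  have e : 2 * a = (a - 1 + 1) + (a - 1) + 1 := by omega
  rw [e, List.range_succ, List.range_add, List.range_succ]
  simp only [List.map_append, List.map_singleton, List.map_map, hmid]
  have e3 : a - 1 + 1 = a := by omega
  have e4 : a + (a - 1) = 2 * a - 1 := by omega
  rw [e3, e4, hlast]
  rfl

lemma mk_eq_wv (a : ℕ) (b : ℤ) (w : List (Bool × Bool)) :
    PresentedGroup.mk ({FreeGroup.mk (relWord a b)} : Set (FreeGroup Bool)) (FreeGroup.mk w)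
      = wv (gen a b) w := by
  rw [FreeGroup.lift_unique (f := gen a b) _ (fun x => rfl), FreeGroup.lift_mk]
  rfl

lemma wv_rel (a : ℕ) (b : ℤ) : wv (gen a b) (relWord a b) = 1 := by
  rw [← mk_eq_wv]
  exact PresentedGroup.one_of_mem rfl

lemma conj_rel (a : ℕ) (b : ℤ) : ∃ W : KG a b, W * gen a b true * W⁻¹ = gen a b false := by
  have h : PresentedGroup.mk ({FreeGroup.mk (relWord a b)} : Set (FreeGroup Bool))
      (FreeGroup.mk (relWord a b)) = 1 := PresentedGroup.one_of_mem rfl
  have h2 : FreeGroup.mk (relWord a b) = FreeGroup.mk (wWord a b) * FreeGroup.of true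
      * (FreeGroup.mk (wWord a b))⁻¹ * (FreeGroup.of false)⁻¹ := by
    unfold relWord
    rw [← FreeGroup.mul_mk, ← FreeGroup.mul_mk, ← FreeGroup.mul_mk, ← FreeGroup.inv_mk]
    rfl
  have h3 := congrArg (PresentedGroup.mk ({FreeGroup.mk (relWord a b)} : Set (FreeGroup Bool))) h2
  rw [h, map_mul, map_mul, map_mul, map_inv, map_inv] at h3
  exact ⟨_, mul_inv_eq_one.1 h3.symm⟩

lemma gens_refl {a : ℕ} {b : ℤ} {p : ℕ} [Fact p.Prime] (α : KG a b →* DihedralGroup p)
    (hα : Function.Surjective α) : ∃ u v : ZMod p, α (gen a b true) = .sr u ∧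
      α (gen a b false) = .sr v ∧ v - u ≠ 0 := by
  obtain ⟨W, hW⟩ := conj_rel a b
  have hW' := congrArg α hW
  rw [map_mul, map_mul, map_inv] at hW'
  rcases hx : α (gen a b true) with i | u <;> rcases hy : α (gen a b false) with j | v
  · exfalso
    let H : Subgroup (DihedralGroup p) :=
      { carrier := {g | ∃ k, g = .r k}
        mul_mem' := by rintro _ _ ⟨k, rfl⟩ ⟨k', rfl⟩; exact ⟨_, rfl⟩
        one_mem' := ⟨0, rfl⟩
        inv_mem' := by rintro _ ⟨k, rfl⟩; exact ⟨_, rfl⟩ }
    obtain ⟨g, hg⟩ := hα (.sr 0)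
    have := PresentedGroup.generated_by _ (H.comap α) (fun t => by
      cases t
      · exact ⟨j, hy⟩
      · exact ⟨i, hx⟩) g
    obtain ⟨k, hk⟩ := this
    rw [hg] at hk
    cases hk
  · exfalso
    rw [hx, hy] at hW'
    rcases hw : α W with k | k <;> rw [hw] at hW' <;> simp at hW'
  · exfalso
    rw [hx, hy] at hW'
    rcases hw : α W with k | k <;> rw [hw] at hW' <;> simp at hW'
  · refine ⟨u, v, rfl, rfl, fun huv => ?_⟩
    have huv' : v = u := sub_eq_zero.1 huv
    let H : Subgroup (DihedralGroup p) :=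
      { carrier := {g | g = .r 0 ∨ g = .sr u}
        mul_mem' := by
          rintro _ _ (rfl | rfl) (rfl | rfl) <;> simp
        one_mem' := Or.inl rfl
        inv_mem' := by rintro _ (rfl | rfl) <;> simp }
    obtain ⟨g, hg⟩ := hα (.r 1)
    have := PresentedGroup.generated_by _ (H.comap α) (fun t => by
      cases t
      · exact Or.inr (by rw [← huv']; exact hy)
      · exact Or.inr hx) g
    rcases this with hk | hk
    · rw [hg] at hk
      exact one_ne_zero (DihedralGroup.r.inj hk)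
    · rw [hg] at hk
      cases hk

lemma phi_gen (a : ℕ) (b : ℤ) (i : Bool) : phi a b (gen a b i) = Multiplicative.ofAdd 1 :=
  PresentedGroup.toGroup.of (phi_rel a b)

/-- degrees of the prefixes -/
def dd (a : ℕ) (b : ℤ) (n : ℕ) : ℤ := Multiplicative.toAdd (phi a b (PP (gen a b) (LL a b) n))

def ee (a : ℕ) (b : ℤ) (i : ℤ) : ℤ := if Even (fl a b i) then 1 else -1

lemma dd_succ (a : ℕ) (b : ℤ) (n : ℕ) : dd a b (n + 1) = dd a b n + ee a b (n + 1) := by
  unfold dd ee
  rw [PP_succ, map_mul, toAdd_mul]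
  congr 1
  unfold val LL
  by_cases h : Even (fl a b ((n : ℤ) + 1))
  · simp [h, phi_gen]
  · simp [h, phi_gen]

lemma dd_zero (a : ℕ) (b : ℤ) : dd a b 0 = 0 := by simp [dd, PP_zero]

lemma dd_par (a : ℕ) (b : ℤ) (n : ℕ) : Even (dd a b n - n) := by
  induction n with
  | zero => simp [dd_zero]
  | succ n ih =>
    rw [dd_succ]
    obtain ⟨k, hk⟩ := ih
    unfold ee
    split_ifs
    · exact ⟨k, by push_cast; omega⟩
    · exact ⟨k - 1, by push_cast; omega⟩

lemma LL_per (a : ℕ) (ha : 0 < a) (b : ℤ) (n : ℕ) : LL a b (n + 2 * a) = LL a b n := by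
  unfold LL
  have e : (((n + 2 * a : ℕ) : ℤ) + 1) = (n : ℤ) + 1 + a + a := by push_cast; ring
  rw [e, fl_add a ha, fl_add a ha]
  refine Prod.ext ?_ ?_
  · simp only [decide_eq_decide, Nat.even_iff]; omega
  · simp only [decide_eq_decide, Int.even_iff]; omega

lemma PP_per (a : ℕ) (b : ℤ) (ha : Odd a) (hb : Odd b) (hab : IsCoprime (a : ℤ) b) (n : ℕ) :
    PP (gen a b) (LL a b) (n + 2 * a) = PP (gen a b) (LL a b) n := by
  induction n with
  | zero =>
    rw [zero_add, PP_zero]
    unfold PP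
    rw [← rel_eq a b ha hb hab, wv_rel]
  | succ n ih =>
    rw [show n + 1 + 2 * a = n + 2 * a + 1 by ring, PP_succ, PP_succ, ih, LL_per a ha.pos]

lemma dd_sym (a : ℕ) (b : ℤ) (ha : Odd a) (hb : Odd b) (hab : IsCoprime (a : ℤ) b) :
    ∃ μ : ℕ, a + 1 ≤ μ ∧ ∀ i ≤ 2 * μ, dd a b (2 * μ - i) = dd a b i := by
  have ha0 : 0 < a := ha.pos
  have h2 : IsCoprime (2 : ℤ) b := by
    obtain ⟨k, hk⟩ := hb
    exact ⟨-k, 1, by rw [hk]; ring⟩
  obtain ⟨y, x, hxy⟩ := IsCoprime.mul_left h2 hab
  set c : ℤ := x + 2 * a * (|x| + 3) with hc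
  have hcb : c * b = 1 + 2 * a * ((|x| + 3) * b - y) := by rw [hc]; linear_combination hxy
  have hc0 : 2 * (a : ℤ) + 3 ≤ c := by
    have h1 := neg_abs_le x
    have h3 := abs_nonneg x
    have h4 : (1 : ℤ) ≤ a := by exact_mod_cast ha0
    rw [hc]; nlinarith
  have hco : Odd c := by
    have : Odd (c * b) := ⟨a * ((|x| + 3) * b - y), by rw [hcb]; ring⟩
    exact (Int.odd_mul.1 this).1
  obtain ⟨m, hm⟩ := hco
  obtain ⟨μ, rfl⟩ : ∃ μ : ℕ, m = μ := ⟨m.toNat, by omega⟩
  have he : ∀ i : ℤ, ee a b (c - i) = -ee a b i := by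
    intro i
    unfold ee
    rw [fl_refl a ha0 b c _ hcb]
    by_cases h : Even (fl a b i)
    · rw [if_pos h, if_neg (by rw [Int.even_iff] at h ⊢; omega)]
    · rw [if_neg h, if_pos (by rw [Int.even_iff] at h ⊢; omega)]; simp
  have key : ∀ i ≤ 2 * μ, dd a b (2 * μ - i) - dd a b i = dd a b (2 * μ) := by
    intro i
    induction i with
    | zero => intro _; simp [dd_zero]
    | succ i ih =>
      intro hi
      have h3 := ih (by omega)
      have h4 := dd_succ a b (2 * μ - (i + 1))
      have e1 : 2 * μ - (i + 1) + 1 = 2 * μ - i := by omega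
      have e2 : (((2 * μ - (i + 1) : ℕ) : ℤ) + 1) = c - ((i : ℤ) + 1) := by omega
      rw [e1, e2, he] at h4
      rw [dd_succ a b i]
      linarith
  have h0 : dd a b (2 * μ) = 0 := by
    have := key (2 * μ) le_rfl
    rw [Nat.sub_self, dd_zero] at this
    linarith
  exact ⟨μ, by omega, fun i hi => by have := key i hi; linarith⟩

lemma alpha_PP {a : ℕ} {b : ℤ} {p : ℕ} (α : KG a b →* DihedralGroup p) (u v : ZMod p)
    (hx : α (gen a b true) = .sr u) (hy : α (gen a b false) = .sr v) (k : ℕ) :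
    α (PP (gen a b) (LL a b) (2 * k)) = .r (k * (v - u)) ∧
      α (PP (gen a b) (LL a b) (2 * k + 1)) = .sr (u - k * (v - u)) := by
  have h1 : ∀ k, α (val (gen a b) (LL a b (2 * k))) = .sr u := by
    intro k
    unfold val LL
    cases decide (Even (fl a b (((2 * k : ℕ) : ℤ) + 1))) <;> simp [hx]
  have h2 : ∀ k, α (val (gen a b) (LL a b (2 * k + 1))) = .sr v := by
    intro k
    unfold val LL
    cases decide (Even (fl a b (((2 * k + 1 : ℕ) : ℤ) + 1))) <;> simp [hy]
  have h3 : α (PP (gen a b) (LL a b) (2 * k)) = .r (k * (v - u)) := by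
    induction k with
    | zero => simp [PP_zero]
    | succ k ih =>
      rw [show 2 * (k + 1) = 2 * k + 1 + 1 by ring, PP_succ, PP_succ, map_mul, map_mul, ih, h1, h2,
        DihedralGroup.r_mul_sr, DihedralGroup.sr_mul_sr]
      congr 1; push_cast; ring
  exact ⟨h3, by rw [PP_succ, map_mul, h3, h1, DihedralGroup.r_mul_sr]⟩

lemma rep_apply {a : ℕ} {b : ℤ} {p : ℕ} [NeZero p] (α : KG a b →* DihedralGroup p) (g : KG a b)
    (m n : ZMod p) : rep α g m n
      = if m = act (α g) n then T (Multiplicative.toAdd (phi a b g)) else 0 := by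
  simp [rep, rho, tpow]

lemma negT_T (k : ℤ) : negT (T k) = ((((-1 : ℤˣ) ^ k : ℤˣ) : ℤ) : LP) * (T k : LP) := by
  unfold negT
  rw [eval₂_T]
  have h1 : ((-(isUnit_T (R := ℤ) 1).unit : LPˣ) : LP) = -T 1 := by
    rw [Units.val_neg, IsUnit.unit_spec]
  induction k using Int.induction_on with
  | zero => simp
  | succ k ih =>
    rw [_root_.zpow_add_one, _root_.zpow_add_one, Units.val_mul, ih, T_add, h1]
    push_cast
    ring
  | pred k ih =>
    rw [_root_.zpow_sub_one, _root_.zpow_sub_one, Units.val_mul, ih, T_sub]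
    have h : (((-(isUnit_T (R := ℤ) 1).unit)⁻¹ : LPˣ) : LP) = -T (-1) := by
      apply Units.inv_eq_of_mul_eq_one_right
      rw [h1, neg_mul_neg, ← T_add, add_neg_cancel, T_zero]
    have h2 : (-1 : ℤˣ)⁻¹ = -1 := rfl
    rw [h, h2]
    push_cast
    ring

lemma fox_true (a : ℕ) (b : ℤ) (ha : Odd a) (hb : Odd b) (hab : IsCoprime (a : ℤ) b) :
    fox (gen a b) true (relWord a b) * (MonoidAlgebra.of ℤ _ (gen a b true) - 1)
      = ∑ k ∈ Finset.range a, (MonoidAlgebra.of ℤ _ (PP (gen a b) (LL a b) (2 * k + 1))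
          - MonoidAlgebra.of ℤ _ (PP (gen a b) (LL a b) (2 * k))) := by
  rw [congrArg (fox (gen a b) true) (rel_eq a b ha hb hab), fox_range, sum_pairs]
  refine Finset.sum_congr rfl fun k _ => ?_
  simp [LL]

lemma fox_false (a : ℕ) (b : ℤ) (ha : Odd a) (hb : Odd b) (hab : IsCoprime (a : ℤ) b) :
    fox (gen a b) false (relWord a b) * (MonoidAlgebra.of ℤ _ (gen a b false) - 1)
      = -(fox (gen a b) true (relWord a b) * (MonoidAlgebra.of ℤ _ (gen a b true) - 1)) := by
  rw [eq_neg_iff_add_eq_zero, congrArg (fox (gen a b) true) (rel_eq a b ha hb hab),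
    congrArg (fox (gen a b) false) (rel_eq a b ha hb hab), fox_range, fox_range,
    ← Finset.sum_add_distrib]
  have h : ∀ i ∈ Finset.range (2 * a), ((if (LL a b i).1 = false then
      MonoidAlgebra.of ℤ _ (PP (gen a b) (LL a b) (i + 1)) - MonoidAlgebra.of ℤ _ (PP (gen a b) (LL a b) i)
      else 0) + if (LL a b i).1 = true then
      MonoidAlgebra.of ℤ _ (PP (gen a b) (LL a b) (i + 1)) - MonoidAlgebra.of ℤ _ (PP (gen a b) (LL a b) i)
      else 0) = MonoidAlgebra.of ℤ _ (PP (gen a b) (LL a b) (i + 1))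
        - MonoidAlgebra.of ℤ _ (PP (gen a b) (LL a b) i) := by
    intro i _
    cases (LL a b i).1 <;> simp
  rw [Finset.sum_congr rfl h,
    Finset.sum_range_sub (fun i => MonoidAlgebra.of ℤ _ (PP (gen a b) (LL a b) i))]
  have := PP_per a b ha hb hab 0
  rw [zero_add] at this
  rw [this, sub_self]

lemma ne1 : (T 1 - 1 : LP) ≠ 0 := by
  intro h
  have := congrArg (LaurentPolynomial.eval₂ (Int.castRingHom ℚ) (Units.mk0 (2 : ℚ) two_ne_zero)) h
  rw [map_sub, map_one, map_zero, eval₂_T] at this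
  norm_num at this

lemma ne2 : (1 - T 2 : LP) ≠ 0 := by
  intro h
  have := congrArg (LaurentPolynomial.eval₂ (Int.castRingHom ℚ) (Units.mk0 (2 : ℚ) two_ne_zero)) h
  rw [map_sub, map_one, map_zero, eval₂_T] at this
  norm_num [zpow_two] at this

lemma finish (D X Y Δ f g U : LP) (hU : U ≠ 0) (s s1 s2 : ℤˣ)
    (hX : X = ((s1 : ℤ) : LP) * ((T 1 - 1) * U)) (hY : Y = ((s2 : ℤ) : LP) * ((T 1 - 1) * U))
    (h : D * X = ((s : ℤ) : LP) * ((Δ * (T 1 - 1)) * ((U * f) * (U * g)))) :
    Y ≠ 0 ∧ ∃ σ : ℤˣ, algebraMap LP (FractionRing LP) (1 - T 1)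
      * (algebraMap LP (FractionRing LP) D / algebraMap LP (FractionRing LP) Y)
        = algebraMap LP (FractionRing LP) (((σ : ℤ) : LP) * (Δ * f * g)) := by
  have sq : ∀ t : ℤˣ, ((t : ℤ) : LP) * ((t : ℤ) : LP) = 1 := by
    intro t
    rcases Int.units_eq_one_or t with rfl | rfl <;> simp
  have hV : (T 1 - 1 : LP) * U ≠ 0 := mul_ne_zero ne1 hU
  have hY0 : Y ≠ 0 := by
    rw [hY]
    refine mul_ne_zero (fun h0 => ?_) hV
    have := sq s2
    rw [h0, mul_zero] at this
    exact zero_ne_one this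
  refine ⟨hY0, -(s * s1 * s2), ?_⟩
  have h1 : D * ((s1 : ℤ) : LP) = ((s : ℤ) : LP) * (Δ * f * g * U) := by
    apply mul_right_cancel₀ hV
    rw [hX] at h
    linear_combination h
  have h2 : (1 - T 1) * D = (((-(s * s1 * s2) : ℤˣ) : ℤ) : LP) * (Δ * f * g) * Y := by
    rw [hY]
    push_cast
    linear_combination (1 - T 1) * ((s1 : ℤ) : LP) * h1 - (1 - T 1) * D * sq s1
      + ((s : ℤ) : LP) * ((s1 : ℤ) : LP) * (Δ * f * g) * ((T 1 - 1) * U) * sq s2
  have hY1 : algebraMap LP (FractionRing LP) Y ≠ 0 := by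
    rwa [ne_eq, IsFractionRing.to_map_eq_zero_iff]
  rw [← mul_div_assoc, div_eq_iff hY1, ← map_mul, ← map_mul, h2]

theorem result (a : ℕ) (b : ℤ) (ha : Odd a) (hb : Odd b) (hab : IsCoprime (a : ℤ) b)
    (p : ℕ) [Fact p.Prime] (hp : Odd p) (α : KG a b →* DihedralGroup p)
    (hα : Function.Surjective α) :
    ∃ f : LP, ∀ j0 : Bool, den α j0 ≠ 0 ∧ ∃ σ : ℤˣ,
      algebraMap LP (FractionRing LP) (1 - T 1) * wada α j0
        = algebraMap LP (FractionRing LP) (((σ : ℤ) : LP) * (alex a b * f * negT f)) := by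
  obtain ⟨l, hl⟩ := hp
  obtain ⟨u, v, hx, hy, huv⟩ := gens_refl α hα
  obtain ⟨μ, hμ, hsym⟩ := dd_sym a b ha hb hab
  have hPP := alpha_PP α u v hx hy
  have ha0 : (a : ZMod p) * (v - u) = 0 := by
    have h1 := (hPP a).1
    have h2 := PP_per a b ha hb hab 0
    rw [zero_add] at h2
    rw [h2, PP_zero, map_one] at h1
    exact (DihedralGroup.r.inj h1).symm
  have hPhi : ∀ g, Phi α (MonoidAlgebra.of ℤ _ g) = rep α g := fun g => MonoidAlgebra.lift_of _ _
  obtain ⟨f, s, hf⟩ := Pool.Agent.H63.Tb.core hl negT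
    (fun k hk => by rw [negT_T, hk.neg_one_zpow]; push_cast; ring)
    (fun k hk => by rw [negT_T, hk.neg_one_zpow]; push_cast; ring)
    a (dd a b)
    (fun k => by obtain ⟨j, hj⟩ := dd_par a b (2 * k); exact ⟨j + k, by push_cast at hj; omega⟩)
    (fun k => by obtain ⟨j, hj⟩ := dd_par a b (2 * k + 1); exact ⟨j + k, by push_cast at hj; omega⟩)
    (fun i => by unfold dd; rw [PP_per a b ha hb hab]) μ hμ hsym (v - u) u huv ha0
    (Phi α (fox (gen a b) true (relWord a b) * (MonoidAlgebra.of ℤ _ (gen a b true) - 1)))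
    (fun m n => by
      rw [fox_true a b ha hb hab, map_sum, Matrix.sum_apply]
      refine Finset.sum_congr rfl fun k _ => ?_
      rw [map_sub, hPhi, hPhi, Matrix.sub_apply, rep_apply, rep_apply, (hPP k).1, (hPP k).2]
      rfl)
  have hal : alex a b * (T 1 - 1)
      = ∑ k ∈ Finset.range a, ((T (dd a b (2 * k + 1)) : LP) - T (dd a b (2 * k))) := by
    have h := congrArg (MonoidAlgebra.lift ℤ LP (KG a b) (tpow a b)) (fox_true a b ha hb hab)
    rw [map_mul, map_sub, map_one, MonoidAlgebra.lift_of, map_sum] at h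
    have h1 : tpow a b (gen a b true) = T 1 := by simp [tpow, phi_gen]
    rw [h1] at h
    unfold alex
    rw [h]
    refine Finset.sum_congr rfl fun k _ => ?_
    rw [map_sub, MonoidAlgebra.lift_of, MonoidAlgebra.lift_of]
    rfl
  rw [← hal] at hf
  have hden : ∀ (j : Bool) (w : ZMod p), α (gen a b j) = .sr w →
      ∃ σ : ℤˣ, den α j = ((σ : ℤ) : LP) * ((T 1 - 1) * (1 - T 2) ^ l) := by
    intro j w hw
    refine Pool.Agent.H63.Tb.det_refl hl w _ (fun m n => ?_)
    rw [map_sub, hPhi, map_one, Matrix.sub_apply, rep_apply, hw, phi_gen, Matrix.one_apply]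
    rfl
  obtain ⟨s1, hs1⟩ := hden true u hx
  obtain ⟨s2, hs2⟩ := hden false v hy
  have hU : ((1 - T 2 : LP) ^ l) ≠ 0 := pow_ne_zero _ ne2
  refine ⟨f, fun j0 => ?_⟩
  cases j0
  · refine finish _ (den α true) _ _ _ _ _ hU s s1 s2 hs1 hs2 ?_
    rw [← hf, map_mul, det_mul]
    rfl
  · refine finish _ (den α false) _ _ _ _ _ hU (-s) s2 s1 hs2 hs1 ?_
    have h := congrArg (fun z => (Phi α z).det) (fox_false a b ha hb hab)
    simp only [map_neg, det_neg, ZMod.card] at h
    rw [hf, map_mul, det_mul, Odd.neg_one_pow ⟨l, hl⟩] at h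
    push_cast
    refine h.trans ?_
    ring

end

end Pool.Agent.Results.MP_d521c2_gt.Dihedral
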